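import Pool.Agent.H62.UN.Targets

/-!
# MP_8b378c_ag: functions without poles on the chart `0` (board `unt_modules`, row HGL)
-/

set_option autoImplicit false

namespace Pool.Agent.H13.UNT

open Polynomial Pool.Agent.H17.UN Pool.Agent.H62.UN

theorem pf_HGL : T_HGL := by
  intro hsc0 htau hhct hhgf hcht hdiv
  intro k F _ _ _ _ _ P Q s y z h f hf0 hf
  obtain ⟨y₀, z₀, hyz, hy0, hz0⟩ := hsc0 k P Q h.dP h.dQ h.sep
  obtain ⟨τ, hτ⟩ := htau k F P Q s y z h y₀ z₀ hyz hy0 hz0
  obtain ⟨a, c, ha, hc0, hcs, hfa⟩ := hhgf k F P Q y₀ z₀ s y z τ hτ f hf0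
    (fun o ho htr hz => hf o ho ((hhct k F P Q y₀ z₀ s y z τ hτ o ho htr).1 hz))
  have hst : Transcendental k s := by
    have := h.ind.transcendental 0
    simpa using this
  have hne : ∀ c : k[X], c ≠ 0 → aeval s c ≠ 0 := fun c hc h0 =>
    hc ((transcendental_iff.1 hst) c h0)
  have hsA : s ∈ ch k s y z 0 := Algebra.subset_adjoin (by simp)
  have hpA : ∀ c : k[X], aeval s c ∈ ch k s y z 0 := fun c =>
    (Algebra.adjoin_mono (by simp : ({s} : Set F) ⊆ {s, y, z})) (aeval_mem_adjoin_singleton k s)
  have hchart : Chart P Q s y z := (hcht k F P Q s y z h).1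
  have key : ∀ (n : ℕ) (c : k[X]), c.natDegree = n → c ≠ 0 → ∀ a ∈ ch k s y z 0,
      f = a / aeval s c → f ∈ ch k s y z 0 := by
    intro n
    induction n with
    | zero =>
      intro c hcn hc a ha hfa
      obtain ⟨c0, rfl⟩ : ∃ c0, c = C c0 := ⟨_, eq_C_of_natDegree_eq_zero hcn⟩
      have h1 : f = algebraMap k F c0⁻¹ * a := by
        rw [hfa, aeval_C, map_inv₀, div_eq_mul_inv, mul_comm]
      rw [h1]
      exact (ch k s y z 0).mul_mem ((ch k s y z 0).algebraMap_mem _) ha
    | succ n ih =>
      intro c hcn hc a ha hfa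
      obtain ⟨e, he⟩ := IsAlgClosed.exists_root c (by
        intro h0
        have h1 := natDegree_eq_zero_iff_degree_le_zero.2 h0.le
        omega)
      obtain ⟨c', rfl⟩ := dvd_iff_isRoot.2 he
      have hc' : c' ≠ 0 := right_ne_zero_of_mul hc
      have hdeg : c'.natDegree = n := by
        rw [natDegree_mul (X_sub_C_ne_zero e) hc', natDegree_X_sub_C] at hcn
        omega
      have hse : s - algebraMap k F e ≠ 0 := by
        have := hne _ (X_sub_C_ne_zero e)
        simpa using this
      have hcs' : aeval s c' ≠ 0 := hne c' hc'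
      have hav : aeval s ((X - C e) * c') = (s - algebraMap k F e) * aeval s c' := by
        simp
      have ha0 : a ≠ 0 := by
        rintro rfl
        apply hf0
        rw [hfa, zero_div]
      have haf : a = f * ((s - algebraMap k F e) * aeval s c') := by
        rw [hfa, hav, div_mul_cancel₀ _ (mul_ne_zero hse hcs')]
      obtain ⟨b, hb, hab⟩ := hdiv k F P Q s y z hchart e a ha ha0 (by
        intro o ho hctr hpos
        have h1 : 0 ≤ o f := hf o ho hctr
        have h2 : 0 ≤ o (aeval s c') := hctr.nn _ (hpA c')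
        have h3 : o a = o f + (o (s - algebraMap k F e) + o (aeval s c')) := by
          conv_lhs => rw [haf]
          rw [ho.mul _ _ hf0 (mul_ne_zero hse hcs'), ho.mul _ _ hse hcs']
        omega)
      refine ih c' hdeg hc' b hb ?_
      rw [hfa, hav, hab, mul_div_mul_left _ _ hse]
  exact key _ c rfl hc0 a ha hfa

end Pool.Agent.H13.UNT
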